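import Pool.Agent.helper45.SGK.Spec

set_option autoImplicit false

namespace Pool.Agent.SGK

open Finset Pool.Agent.helper38.Neg Pool.Agent.helper55.NT
open Pool.Agent.SGC (Sg SCirc Ext Mv hw RN Solv stA stB)

theorem BPK_aux {k : ℕ} [NeZero k] (S : Finset (Wd k)) (u : Wd k) (hS : MajClosed S)
    (h : ∀ j j', ∃ s ∈ S, s j = u j ∧ s j' = u j') :
    ∀ (n : ℕ) (J : Finset (Fin k)), J.card = n → ∃ s ∈ S, ∀ j ∈ J, s j = u j := by
  intro n
  induction n using Nat.strong_induction_on with
  | _ n ih =>
    intro J hJ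
    rcases Nat.lt_or_ge n 3 with hn | hn
    · have hab : ∃ a b : Fin k, ∀ c ∈ J, c = a ∨ c = b := by
        rcases J.eq_empty_or_nonempty with hE | ⟨a, ha⟩
        · subst hE
          exact ⟨0, 0, fun c hc => absurd hc (Finset.notMem_empty c)⟩
        · rcases (J.erase a).eq_empty_or_nonempty with hE | ⟨b, hb⟩
          · refine ⟨a, a, fun c hc => ?_⟩
            by_contra hca
            have : c ∈ J.erase a := Finset.mem_erase.mpr ⟨fun h => hca (Or.inl h), hc⟩
            rw [hE] at this
            exact absurd this (Finset.notMem_empty c)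
          · refine ⟨a, b, fun c hc => ?_⟩
            by_contra hca
            push Not at hca
            have h1 : c ∈ (J.erase a).erase b :=
              Finset.mem_erase.mpr ⟨hca.2, Finset.mem_erase.mpr ⟨hca.1, hc⟩⟩
            have h2 : ((J.erase a).erase b).card = J.card - 1 - 1 := by
              rw [Finset.card_erase_of_mem hb, Finset.card_erase_of_mem ha]
            have h3 : 0 < ((J.erase a).erase b).card := Finset.card_pos.mpr ⟨c, h1⟩
            omega
      obtain ⟨a, b, hab⟩ := hab
      obtain ⟨s, hs, h1, h2⟩ := h a b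
      refine ⟨s, hs, fun j hj => ?_⟩
      rcases hab j hj with rfl | rfl
      · exact h1
      · exact h2
    · have h2 : 2 < J.card := by omega
      obtain ⟨a, ha, b, hb, c, hc, hab, hac, hbc⟩ := Finset.two_lt_card.mp h2
      obtain ⟨s1, hs1, h1⟩ := ih (n - 1) (by omega) (J.erase a) (by rw [Finset.card_erase_of_mem ha, hJ])
      obtain ⟨s2, hs2, h2⟩ := ih (n - 1) (by omega) (J.erase b) (by rw [Finset.card_erase_of_mem hb, hJ])
      obtain ⟨s3, hs3, h3⟩ := ih (n - 1) (by omega) (J.erase c) (by rw [Finset.card_erase_of_mem hc, hJ])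
      refine ⟨maj3 s1 s2 s3, hS s1 hs1 s2 hs2 s3 hs3, fun j hj => ?_⟩
      have k1 : ∀ x v : ZMod 2, x * v + v * v + v * x = v := by decide
      have k2 : ∀ x v : ZMod 2, v * x + x * v + v * v = v := by decide
      have k3 : ∀ x v : ZMod 2, v * v + v * x + x * v = v := by decide
      show s1 j * s2 j + s2 j * s3 j + s3 j * s1 j = u j
      by_cases hja : j = a
      · have e2 := h2 j (Finset.mem_erase.mpr ⟨by rw [hja]; exact hab, hj⟩)
        have e3 := h3 j (Finset.mem_erase.mpr ⟨by rw [hja]; exact hac, hj⟩)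
        rw [e2, e3]
        exact k1 _ _
      · have e1 := h1 j (Finset.mem_erase.mpr ⟨hja, hj⟩)
        by_cases hjb : j = b
        · have e3 := h3 j (Finset.mem_erase.mpr ⟨by rw [hjb]; exact hbc, hj⟩)
          rw [e1, e3]
          exact k2 _ _
        · have e2 := h2 j (Finset.mem_erase.mpr ⟨hjb, hj⟩)
          rw [e1, e2]
          exact k3 _ _

theorem BPK : BPK_stmt := by
  intro k _ S u hS h
  obtain ⟨s, hs, h1⟩ := BPK_aux S u hS h _ Finset.univ rfl
  have : s = u := funext fun j => h1 j (Finset.mem_univ j)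
  rw [← this]
  exact hs

end Pool.Agent.SGK
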