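import Pool.Agent.helper45.SGK.Spec

set_option autoImplicit false

namespace Pool.Agent.SGK

open Finset Pool.Agent.helper38.Neg Pool.Agent.helper55.NT
open Pool.Agent.SGC (Sg SCirc Ext Mv hw RN Solv stA stB)

theorem CL2 : CL2_stmt := by
  intro I _ f hf h0 hm
  classical
  have hU : ∃ n : ℕ, ∃ A : Finset I, A.card = n ∧ f (fun i => if i ∈ A then 1 else 0) = 1 := by
    refine ⟨_, Finset.univ, rfl, ?_⟩
    have h1 := hf 0
    rw [h0, zero_add, zero_add] at h1
    have h2 : (fun i : I => if i ∈ (Finset.univ : Finset I) then (1 : ZMod 2) else 0) = 1 := by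
      funext i
      simp
    rw [h2]
    exact h1
  obtain ⟨A, hA, hfA⟩ := Nat.find_spec hU
  have hmin : ∀ B : Finset I, f (fun i => if i ∈ B then 1 else 0) = 1 → A.card ≤ B.card := by
    intro B hB
    rw [hA]
    exact Nat.find_min' hU ⟨B, rfl, hB⟩
  have hne : A.Nonempty := by
    by_contra h
    rw [Finset.not_nonempty_iff_eq_empty] at h
    rw [h] at hfA
    have h2 : (fun i : I => if i ∈ (∅ : Finset I) then (1 : ZMod 2) else 0) = 0 := by
      funext i
      simp
    rw [h2, h0] at hfA
    exact zero_ne_one hfA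
  obtain ⟨a, ha⟩ := hne
  have hsing : f (fun i => if i ∈ ({a} : Finset I) then 1 else 0) = 1 := by
    obtain ⟨l, hl⟩ := hm (fun i => if i = a then 0 else if i ∈ A then 1 else 2)
    have e1 : ((![1, 1, 0] : Fin 3 → ZMod 2) ∘ fun i => if i = a then 0 else if i ∈ A then 1 else 2) =
        fun i => if i ∈ A then 1 else 0 := by
      funext i
      simp only [Function.comp_apply]
      by_cases hi : i = a
      · rw [if_pos hi, hi, if_pos ha]; rfl
      · rw [if_neg hi]
        by_cases hiA : i ∈ A
        · rw [if_pos hiA, if_pos hiA]; rfl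
        · rw [if_neg hiA, if_neg hiA]; rfl
    have e2 : ((![1, 0, 0] : Fin 3 → ZMod 2) ∘ fun i => if i = a then 0 else if i ∈ A then 1 else 2) =
        fun i => if i ∈ ({a} : Finset I) then 1 else 0 := by
      funext i
      simp only [Function.comp_apply, Finset.mem_singleton]
      by_cases hi : i = a
      · rw [if_pos hi, if_pos hi]; rfl
      · rw [if_neg hi, if_neg hi]
        by_cases hiA : i ∈ A
        · rw [if_pos hiA]; rfl
        · rw [if_neg hiA]; rfl
    have e3 : ((![0, 1, 0] : Fin 3 → ZMod 2) ∘ fun i => if i = a then 0 else if i ∈ A then 1 else 2) =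
        fun i => if i ∈ A.erase a then 1 else 0 := by
      funext i
      simp only [Function.comp_apply, Finset.mem_erase]
      by_cases hi : i = a
      · rw [if_pos hi, if_neg (fun h => h.1 hi)]; rfl
      · rw [if_neg hi]
        by_cases hiA : i ∈ A
        · rw [if_pos hiA, if_pos ⟨hi, hiA⟩]; rfl
        · rw [if_neg hiA, if_neg (fun h => hiA h.2)]; rfl
    have h1 := hl ![1, 1, 0]
    have h2 := hl ![1, 0, 0]
    have h3 := hl ![0, 1, 0]
    rw [e1, hfA] at h1
    rw [e2] at h2
    rw [e3] at h3
    fin_cases l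
    · rw [h2]; rfl
    · exfalso
      have h4 := hmin (A.erase a) (by rw [h3]; rfl)
      rw [Finset.card_erase_of_mem ha] at h4
      have h5 : 0 < A.card := Finset.card_pos.mpr ⟨a, ha⟩
      omega
    · exfalso
      exact one_ne_zero (α := ZMod 2) (by rw [h1]; rfl)
  refine ⟨a, fun x => ?_⟩
  obtain ⟨l, hl⟩ := hm (fun i => if i = a then 0 else if x i = 1 then 1 else 2)
  have e2 : ((![1, 0, 0] : Fin 3 → ZMod 2) ∘ fun i => if i = a then 0 else if x i = 1 then 1 else 2) =
      fun i => if i ∈ ({a} : Finset I) then 1 else 0 := by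
    funext i
    simp only [Function.comp_apply, Finset.mem_singleton]
    by_cases hi : i = a
    · rw [if_pos hi, if_pos hi]; rfl
    · rw [if_neg hi, if_neg hi]
      by_cases hiA : x i = 1
      · rw [if_pos hiA]; rfl
      · rw [if_neg hiA]; rfl
  have e4 : ((![x a, 1, 0] : Fin 3 → ZMod 2) ∘ fun i => if i = a then 0 else if x i = 1 then 1 else 2) = x := by
    funext i
    simp only [Function.comp_apply]
    by_cases hi : i = a
    · rw [if_pos hi, hi]; rfl
    · rw [if_neg hi]
      by_cases hiA : x i = 1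
      · rw [if_pos hiA, hiA]; rfl
      · rw [if_neg hiA]
        have h6 : ∀ y : ZMod 2, ¬ y = 1 → (0 : ZMod 2) = y := by decide
        exact h6 _ hiA
  have h2 := hl ![1, 0, 0]
  have h4 := hl ![x a, 1, 0]
  rw [e2, hsing] at h2
  rw [e4] at h4
  fin_cases l
  · rw [h4]; rfl
  · exfalso
    exact one_ne_zero (α := ZMod 2) (by rw [h2]; rfl)
  · exfalso
    exact one_ne_zero (α := ZMod 2) (by rw [h2]; rfl)

end Pool.Agent.SGK
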